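import Pool.Agent.CG53.Main

/-! Cramér's random model of the primes (`y = 0`) and its sieved versions (Granville): between
`n ^ 2` and `(n + 1) ^ 2` the integers with a prime factor at most `y n` are excluded, where
`y n ≤ C log n` for large `n`. Almost surely the sequence `L` of the problem satisfies
`L(n) ~ n ^ 2 / 4`, a regularly varying function of index `2`. -/

set_option autoImplicit false

namespace Pool.Agent.Results.MP_baa2a0_nt.CramerModel

open MeasureTheory Filter Topology Pool.Agent.CR53 Pool.Agent.CY53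

theorem result {y : ℕ → ℕ} {C : ℝ}
    (hy : ∀ᶠ n : ℕ in atTop, (y n : ℝ) ≤ C * Real.log n) :
    ∀ᵐ ω ∂(Measure.infinitePi (coinY y)), Q1 (sqCount {m | ω m = true}) ∧
      Tendsto (fun n : ℕ => (recSeq (sqCount {m | ω m = true}) n : ℝ) / (n : ℝ) ^ 2) atTop
        (𝓝 (1 / 4)) :=
  Pool.Agent.CG53.sieve_main2 hy

end Pool.Agent.Results.MP_baa2a0_nt.CramerModel
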